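import Mathlib
import Pool.Agent.Lib.MP_5c1789_lc.Main
import Pool.Agent.Lib.MP_5c1789_lcR.Main

/-!
# It is consistent that there are `ℵ₂`-Kurepa trees and all their branch sets are continuous images
of `^{ω₂}ω₂`

* (i) There is a countable model of ZFC with this property.
* (ii) If CH holds in the universe, there is such a model in which moreover `ℵ₂^{<ℵ₂} = ℵ₂`.
-/

open Pool.Agent.Lib.Forcing
open Pool.Agent.Lib.MP_5c1789_lc
open Pool.Agent.Lib.MP_5c1789_lcR

/-- (i) There is a countable model of ZFC in which there are `ℵ₂`-Kurepa trees and the branch set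
of every `ℵ₂`-Kurepa tree is a continuous image of `^{ω₂}ω₂`.
(ii) If the continuum hypothesis holds in the universe, there is a countable model of ZFC in which
moreover `ℵ₂^{<ℵ₂} = ℵ₂`. -/
theorem Pool.Agent.Results.MP_5c1789_lc.ConsistentYes.result :
    (∃ (M : Type) (E : M → M → Prop), Countable M ∧ IsZFC M E ∧ KurepaImages E) ∧
    ((Cardinal.aleph 1 : Cardinal.{0}) = Cardinal.continuum →
      ∃ (M : Type) (E : M → M → Prop), Countable M ∧ IsZFC M E ∧ KurepaImagesReg E) := by
  refine ⟨Pool.Agent.Lib.MP_5c1789_lc.exists_model, fun h => ?_⟩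
  refine Pool.Agent.Lib.MP_5c1789_lcR.exists_model ?_
  have h1 := congrArg Cardinal.lift.{1, 0} h
  rw [Cardinal.lift_aleph, Cardinal.lift_continuum] at h1
  show (2 : Cardinal.{1}) ^ Cardinal.aleph0.{1} = Cardinal.aleph 1
  rw [Cardinal.two_power_aleph0, ← h1, Ordinal.lift_one]
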